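import Pool.Agent.Schunck.Projector

set_option autoImplicit false

namespace Pool.Agent.Schunck

open RegularWreathProduct

/-- The base group of the wreath product. -/
abbrev base (D M : Type) [Group D] [Group M] : Subgroup (RegularWreathProduct D M) :=
  (RegularWreathProduct.rightHom : RegularWreathProduct D M →* M).ker

lemma mem_base {D M : Type} [Group D] [Group M] (g : RegularWreathProduct D M) :
    g ∈ base D M ↔ g.right = 1 := Iff.rfl

/-- The base group embeds in the group of functions. -/
def baseHom (D M : Type) [Group D] [Group M] : base D M →* (M → D) where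
  toFun g := g.1.left
  map_one' := rfl
  map_mul' := by
    rintro ⟨a, ha⟩ ⟨b, hb⟩
    rw [mem_base] at ha
    funext x
    simp [ha]

lemma baseHom_injective (D M : Type) [Group D] [Group M] :
    Function.Injective (baseHom D M) := by
  rintro ⟨a, ha⟩ ⟨b, hb⟩ h
  rw [mem_base] at ha hb
  apply Subtype.ext
  apply RegularWreathProduct.ext
  · exact h
  · rw [ha, hb]

lemma base_comm {D M : Type} [CommGroup D] [Group M] {a b : RegularWreathProduct D M}
    (ha : a ∈ base D M) (hb : b ∈ base D M) : a * b = b * a := by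
  have h1 : (⟨a, ha⟩ : base D M) * ⟨b, hb⟩ = ⟨b, hb⟩ * ⟨a, ha⟩ := by
    apply baseHom_injective D M
    rw [map_mul, map_mul, mul_comm]
  exact congrArg Subtype.val h1

open Classical in
/-- The indicator function of the subgroup `H`. -/
noncomputable def delta (r : ℕ) {M : Type} [Group M] (H : Subgroup M) :
    RegularWreathProduct (Multiplicative (ZMod r)) M :=
  ⟨fun x => if x ∈ H then Multiplicative.ofAdd 1 else 1, 1⟩

lemma delta_mem (r : ℕ) {M : Type} [Group M] (H : Subgroup M) :
    delta r H ∈ base (Multiplicative (ZMod r)) M := rfl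

lemma delta_pow (r : ℕ) {M : Type} [Group M] (H : Subgroup M) : delta r H ^ r = 1 := by
  have h1 : (⟨delta r H, delta_mem r H⟩ : base (Multiplicative (ZMod r)) M) ^ r = 1 := by
    apply baseHom_injective
    rw [map_pow, map_one]
    funext x
    change (baseHom _ _ ⟨delta r H, delta_mem r H⟩ x) ^ r = 1
    generalize baseHom _ _ ⟨delta r H, delta_mem r H⟩ x = y
    change Multiplicative.ofAdd (r • Multiplicative.toAdd y) = 1
    rw [nsmul_eq_mul, CharP.cast_eq_zero, zero_mul]
    rfl
  exact congrArg Subtype.val h1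

lemma delta_comm {r : ℕ} [Fact r.Prime] {M : Type} [Group M] (H : Subgroup M)
    (g : RegularWreathProduct (Multiplicative (ZMod r)) M) :
    g * delta r H = delta r H * g ↔ g.right ∈ H := by
  classical
  constructor
  · intro h
    have h1 := congrArg RegularWreathProduct.left h
    have h2 := congrFun h1 g.right
    simp only [RegularWreathProduct.mul_left, Pi.mul_apply, delta, inv_mul_cancel, inv_one,
      one_mul, H.one_mem, if_true] at h2
    rw [mul_comm] at h2
    have h3 := mul_right_cancel h2
    by_contra hcon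
    rw [if_neg hcon] at h3
    have h4 : (1 : ZMod r) = 0 := h3
    exact one_ne_zero h4
  · intro h
    apply RegularWreathProduct.ext
    · funext x
      simp only [RegularWreathProduct.mul_left, Pi.mul_apply, delta, inv_one, one_mul]
      rw [mul_comm]
      congr 1
      have h1 : g.right⁻¹ * x ∈ H ↔ x ∈ H := H.mul_mem_cancel_left (H.inv_mem h)
      by_cases hx : x ∈ H
      · rw [if_pos hx, if_pos (h1.mpr hx)]
      · rw [if_neg hx, if_neg (fun h2 => hx (h1.mp h2))]
    · simp [delta]

lemma conj_of_comm {X : Type} [Group X] (f v a : X) (h : v * a = a * v) :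
    f * v * a * (f * v)⁻¹ = f * a * f⁻¹ := by
  have h2 : v * a * v⁻¹ = a := by rw [h]; group
  calc f * v * a * (f * v)⁻¹ = f * (v * a * v⁻¹) * f⁻¹ := by group
    _ = f * a * f⁻¹ := by rw [h2]

lemma comm_of_comm_eq_one {X : Type} [Group X] (x d : X) (h : x * d * x⁻¹ * d⁻¹ = 1) :
    x * d = d * x := by
  have h4 : x * d * x⁻¹ * d⁻¹ * (d * x) = x * d := by group
  rw [h, one_mul] at h4
  exact h4.symm

lemma comm_assoc' {X : Type} [Group X] (x d : X) : x * d * x⁻¹ * d⁻¹ = x * (d * x⁻¹ * d⁻¹) := by
  group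

/-- Main lemma. -/
lemma tow_le_aux {A : (G : Type) → [Group G] → Prop} (hA : IsSchunck A)
    (hAT : LL A (fun G [Group G] => Tow 0 G)) {r : ℕ} [Fact r.Prime]
    (hZ : ∀ (C : Type) [Group C], Nat.card C = r → A C) :
    ∀ (k : ℕ) (M : Type) [Group M] [Finite M], Nat.card M ≤ k → Tow r M → A M := by
  have hrp : r.Prime := Fact.out
  intro k
  induction k with
  | zero =>
    intro M _ _ hk
    exact absurd hk (Nat.not_le.mpr Nat.card_pos)
  | succ k ih =>
    intro M _ _ hk hM
    by_cases hp : IsPGroup r M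
    · exact hA.pgroup hZ hp
    by_contra hAM
    -- there is a prime other than `r`
    have hex : ∃ t : ℕ, t.Prime ∧ t ∣ Nat.card M ∧ r < t := by
      by_contra hcon
      push Not at hcon
      apply hp
      rw [IsPGroup.iff_card]
      have h1 : ∀ {d : ℕ}, d.Prime → d ∣ Nat.card M → d = r := by
        intro d hd hdM
        exact le_antisymm (hcon d hd hdM) (hM.2.2.1 d hd hdM)
      exact ⟨_, Nat.eq_prime_pow_of_unique_prime_dvd Nat.card_pos.ne' h1⟩
    obtain ⟨t, ht, htd, hrt⟩ := hex
    obtain ⟨s, hsp, hsd, hsmax⟩ := exists_largest (m := Nat.card M) Nat.card_pos.ne' (by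
      intro h; rw [h] at htd
      exact ht.one_lt.ne' (Nat.dvd_one.mp htd))
    have hrs : r < s := hrt.trans_le (hsmax t ht htd)
    let D := Multiplicative (ZMod r)
    let G := RegularWreathProduct D M
    have hNZ : NeZero r := ⟨hrp.ne_zero⟩
    have hfinD : Finite D := inferInstance
    have hfinG : Finite G := inferInstance
    let ρ : G →* M := RegularWreathProduct.rightHom
    have hρ : Function.Surjective ρ := fun m => ⟨⟨1, m⟩, rfl⟩
    let V : Subgroup G := base D M
    have hVρ : V = ρ.ker := rfl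
    have hVn : V.Normal := inferInstance
    have hVcard : Nat.card V ∣ r ^ Nat.card M := by
      have h1 := Subgroup.card_dvd_of_injective (baseHom D M) (baseHom_injective D M)
      have h2 : Nat.card (M → D) = r ^ Nat.card M := by
        rw [Nat.card_fun]
        congr 1
        change Nat.card (ZMod r) = r
        exact Nat.card_zmod r
      rwa [h2] at h1
    have hVp : ∀ t : ℕ, t.Prime → t ∣ Nat.card V → t = r := by
      intro t ht htd
      exact (Nat.prime_dvd_prime_iff_eq ht hrp).mp (ht.dvd_of_dvd_pow (htd.trans hVcard))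
    have hVs : Lt s (Nat.card V) := by
      intro t ht htd
      rw [hVp t ht htd]; exact hrs
    have hsG : Group.IsSolvable G := by
      have h1 : Group.IsSolvable V :=
        Group.isSolvable_of_isSolvable_injective (baseHom_injective D M)
      have h2 : Group.IsSolvable M := hM.2.1
      exact Group.isSolvable_of_ker_le_range V.subtype ρ (by rw [Subgroup.range_subtype])
    obtain ⟨E, F, hE, hF, hEF⟩ := hAT G hsG
    -- `F` maps onto `M`
    have hFM : F.map ρ = ⊤ := by
      have h1 := (Proj.hom (tow_isSchunck 0) hF ρ hρ).2 ⊤ le_top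
        ((hM.mono (Nat.zero_le r)).of_injective (⊤ : Subgroup M).subtype
          (Subgroup.subtype_injective _))
      exact h1.symm
    obtain ⟨hE1, hE2⟩ := Proj.hom hA hE ρ hρ
    let E' : Subgroup M := E.map ρ
    have hE't : E' ≠ ⊤ := by
      intro h
      apply hAM
      have h1 : A ↥E' := hE1
      rw [h] at h1
      exact hA.2.1 _ _ ⟨Subgroup.topEquiv⟩ h1
    have hfac : ∀ g : G, ∃ f ∈ F, ∃ v ∈ V, f * v = g := by
      intro g
      have h1 : ρ g ∈ F.map ρ := by rw [hFM]; trivial
      obtain ⟨f, hf, hfg⟩ := h1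
      refine ⟨f, hf, f⁻¹ * g, ?_, mul_inv_cancel_left f g⟩
      rw [hVρ, MonoidHom.mem_ker, map_mul, map_inv, hfg, inv_mul_cancel]
    have hV0n : (F ⊓ V).Normal := by
      constructor
      rintro a ⟨ha1, ha2⟩ g
      obtain ⟨f, hf, v, hv, rfl⟩ := hfac g
      rw [conj_of_comm f v a (base_comm hv ha2)]
      exact ⟨F.mul_mem (F.mul_mem hf ha1) (F.inv_mem hf), hVn.conj_mem a ha2 f⟩
    let δ : G := delta r E'
    have hδV : δ ∈ V := delta_mem r E'
    have hδE : ∀ e ∈ E, e * δ = δ * e := by
      intro e he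
      exact (delta_comm E' e).mpr ⟨e, he, rfl⟩
    -- `δ ∈ F`
    have hδF : δ ∈ F := by
      let π := QuotientGroup.mk' (F ⊓ V)
      obtain ⟨h1, h2⟩ := hE (F ⊓ V)
      have h3 : A ↥(E.map π ⊔ Subgroup.zpowers (π δ)) := by
        apply hA.central' hZ inferInstance (E.map π) h1 (π δ)
        · rintro _ ⟨e, he, rfl⟩
          rw [← map_mul, ← map_mul, hδE e he]
        · rw [← map_pow]
          have : δ ^ r = 1 := delta_pow r E'
          rw [this, map_one]
      have h4 := h2 _ le_sup_left h3
      have h5 : π δ ∈ E.map π := by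
        rw [← h4]
        exact (le_sup_right : _ ≤ E.map π ⊔ Subgroup.zpowers (π δ)) (Subgroup.mem_zpowers _)
      have h6 : δ ∈ (E.map π).comap π := h5
      rw [Subgroup.comap_map_eq, QuotientGroup.ker_mk'] at h6
      exact (sup_le hEF inf_le_left : E ⊔ F ⊓ V ≤ F) h6
    -- the normal Hall subgroup of `F`
    have hFT : Tow 0 F := by
      have h1 := (hF ⊥).1
      have h2 : Function.Injective ((QuotientGroup.mk' (⊥ : Subgroup G)).comp F.subtype) := by
        rw [← MonoidHom.ker_eq_bot_iff, eq_bot_iff]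
        intro x hx
        rw [MonoidHom.mem_ker] at hx
        have h3 : (x : G) ∈ (QuotientGroup.mk' (⊥ : Subgroup G)).ker := hx
        rw [QuotientGroup.ker_mk', Subgroup.mem_bot] at h3
        exact Subtype.ext h3
      apply h1.of_injective (((QuotientGroup.mk' (⊥ : Subgroup G)).comp F.subtype).codRestrict
        (F.map (QuotientGroup.mk' (⊥ : Subgroup G))) (fun x => ⟨x.1, x.2, rfl⟩))
      intro x y hxy
      exact h2 (congrArg Subtype.val hxy)
    obtain ⟨P', hP'n, hP'1, hP'2⟩ := hFT.2.2.2 s
    let P : Subgroup G := P'.map F.subtype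
    have hPcard : Nat.card P = Nat.card P' :=
      Nat.card_congr (P'.equivMapOfInjective F.subtype F.subtype_injective).symm.toEquiv
    have hPnF : ∀ x ∈ F, ∀ p ∈ P, x * p * x⁻¹ ∈ P := by
      rintro x hx _ ⟨p, hp, rfl⟩
      exact ⟨⟨x, hx⟩ * p * ⟨x, hx⟩⁻¹, hP'n.conj_mem p hp ⟨x, hx⟩, rfl⟩
    have hPb : P ≠ ⊥ := by
      intro h
      have h1 : Nat.card M ∣ Nat.card F := by
        apply Subgroup.card_dvd_of_surjective (ρ.comp F.subtype)
        intro m
        have h2 : m ∈ F.map ρ := by rw [hFM]; trivial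
        obtain ⟨f, hf, hfm⟩ := h2
        exact ⟨⟨f, hf⟩, hfm⟩
      have h2 : s ∣ Nat.card P' * P'.index := by
        rw [Subgroup.card_mul_index]; exact hsd.trans h1
      rw [← hPcard, h, Subgroup.card_bot, one_mul] at h2
      exact lt_irrefl s (hP'2 s hsp h2)
    have hPV : ∀ x ∈ P, x ∈ V → x = 1 := by
      intro x hxP hxV
      apply eq_one_of_mem (s := s) (A := P) (B := V) _ hVs hxP hxV
      rw [hPcard]; exact hP'1
    have hPδ : ∀ x ∈ P, ρ x ∈ E' := by
      intro x hx
      apply (delta_comm E' x).mp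
      have h1 : x * δ * x⁻¹ * δ⁻¹ ∈ P := by
        have h2 := P.mul_mem hx (hPnF δ hδF x⁻¹ (P.inv_mem hx))
        rw [comm_assoc']; exact h2
      have h2 : x * δ * x⁻¹ * δ⁻¹ ∈ V := V.mul_mem (hVn.conj_mem δ hδV x) (V.inv_mem hδV)
      exact comm_of_comm_eq_one x δ (hPV _ h1 h2)
    let R : Subgroup M := P.map ρ
    have hRn : R.Normal := by
      constructor
      rintro _ ⟨x, hx, rfl⟩ m
      have h2 : m ∈ F.map ρ := by rw [hFM]; trivial
      obtain ⟨f, hf, rfl⟩ := h2
      exact ⟨f * x * f⁻¹, hPnF f hf x hx, by simp⟩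
    have hRb : R ≠ ⊥ := by
      intro h
      apply hPb
      rw [eq_bot_iff]
      intro x hx
      rw [Subgroup.mem_bot]
      apply hPV x hx
      rw [hVρ, MonoidHom.mem_ker]
      have h1 : ρ x ∈ R := ⟨x, hx, rfl⟩
      rw [h, Subgroup.mem_bot] at h1
      exact h1
    have hRE : R ≤ E' := by
      rintro _ ⟨x, hx, rfl⟩
      exact hPδ x hx
    have hAR : A (M ⧸ R) := by
      apply ih
      · have := card_quot_lt R hRb
        omega
      · exact hM.of_surjective (QuotientGroup.mk' R) (QuotientGroup.mk'_surjective R)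
    have h1 := (Proj.hom hA hE ((QuotientGroup.mk' R).comp ρ)
      ((QuotientGroup.mk'_surjective R).comp hρ)).2 ⊤ le_top
      (hA.2.1 _ _ ⟨Subgroup.topEquiv.symm⟩ hAR)
    rw [← Subgroup.map_map] at h1
    apply hE't
    rw [eq_top_iff]
    intro m _
    have h2 : QuotientGroup.mk' R m ∈ (E.map ρ).map (QuotientGroup.mk' R) := by
      rw [← h1]; trivial
    have h3 : m ∈ (E'.map (QuotientGroup.mk' R)).comap (QuotientGroup.mk' R) := h2
    rw [Subgroup.comap_map_eq, QuotientGroup.ker_mk', sup_eq_left.mpr hRE] at h3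
    exact h3

end Pool.Agent.Schunck
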