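import Mathlib

set_option autoImplicit false

namespace Pool.Agent.Schunck

/-! ### Arithmetic of prime divisors -/

/-- all prime divisors of `m` are at least `q` -/
def Ge (q m : ℕ) : Prop := ∀ r : ℕ, r.Prime → r ∣ m → q ≤ r

/-- all prime divisors of `m` are less than `q` -/
def Lt (q m : ℕ) : Prop := ∀ r : ℕ, r.Prime → r ∣ m → r < q

lemma Ge.dvd {q a b : ℕ} (h : Ge q b) (hab : a ∣ b) : Ge q a :=
  fun r hr hra => h r hr (hra.trans hab)

lemma Lt.dvd {q a b : ℕ} (h : Lt q b) (hab : a ∣ b) : Lt q a :=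
  fun r hr hra => h r hr (hra.trans hab)

lemma Ge.mul {q a b : ℕ} (ha : Ge q a) (hb : Ge q b) : Ge q (a * b) := by
  intro r hr hrab
  rcases (Nat.Prime.dvd_mul hr).mp hrab with h | h
  · exact ha r hr h
  · exact hb r hr h

lemma Lt.mul {q a b : ℕ} (ha : Lt q a) (hb : Lt q b) : Lt q (a * b) := by
  intro r hr hrab
  rcases (Nat.Prime.dvd_mul hr).mp hrab with h | h
  · exact ha r hr h
  · exact hb r hr h

lemma Ge.coprime {q a b : ℕ} (ha : Ge q a) (hb : Lt q b) : Nat.Coprime a b := by
  apply Nat.Coprime.symm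
  apply Nat.Coprime.symm
  rw [Nat.coprime_iff_gcd_eq_one] 
  by_contra h
  obtain ⟨p, hp, hpd⟩ := Nat.exists_prime_and_dvd h
  have h1 := ha p hp (hpd.trans (Nat.gcd_dvd_left a b))
  have h2 := hb p hp (hpd.trans (Nat.gcd_dvd_right a b))
  omega

lemma Ge.one (q : ℕ) : Ge q 1 := by
  intro r hr h
  exact absurd (Nat.dvd_one.mp h) hr.one_lt.ne'

lemma Lt.one (q : ℕ) : Lt q 1 := by
  intro r hr h
  exact absurd (Nat.dvd_one.mp h) hr.one_lt.ne'

lemma Ge.mono {q q' a : ℕ} (h : Ge q a) (hq : q' ≤ q) : Ge q' a :=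
  fun r hr hra => hq.trans (h r hr hra)

lemma Lt.mono {q q' a : ℕ} (h : Lt q a) (hq : q ≤ q') : Lt q' a :=
  fun r hr hra => (h r hr hra).trans_le hq

/-! ### Groups with a Sylow tower -/

/-- Finite soluble groups `G` all of whose prime divisors are at least `n` and such that for each
`q` there is a normal Hall subgroup for the primes `≥ q`. -/
def Tow (n : ℕ) (G : Type) [Group G] : Prop :=
  Finite G ∧ Group.IsSolvable G ∧ Ge n (Nat.card G) ∧
    ∀ q : ℕ, ∃ H : Subgroup G, H.Normal ∧ Ge q (Nat.card H) ∧ Lt q H.index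

lemma hall_le {G : Type} [Group G] [Finite G] {q : ℕ} {H S : Subgroup G} (hn : H.Normal)
    (hH : Lt q H.index) (hS : Ge q (Nat.card S)) : S ≤ H := by
  have h1 : Nat.card (S.map (QuotientGroup.mk' H)) ∣ Nat.card S := Subgroup.card_map_dvd _ _
  have h2 : Nat.card (S.map (QuotientGroup.mk' H)) ∣ H.index := by
    rw [Subgroup.index_eq_card]
    exact Subgroup.card_subgroup_dvd_card _
  have h3 : Nat.card (S.map (QuotientGroup.mk' H)) = 1 :=
    Nat.eq_one_of_dvd_coprimes (hS.coprime hH) h1 h2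
  have h4 : S.map (QuotientGroup.mk' H) = ⊥ := Subgroup.card_eq_one.mp h3
  have h5 := (Subgroup.map_eq_bot_iff _).mp h4
  rwa [QuotientGroup.ker_mk'] at h5

lemma Tow.of_injective {n : ℕ} {S G : Type} [Group S] [Group G] (f : S →* G)
    (hf : Function.Injective f) (h : Tow n G) : Tow n S := by
  obtain ⟨h1, h2, h3, h4⟩ := h
  have : Finite S := Finite.of_injective f hf
  refine ⟨this, Group.isSolvable_of_isSolvable_injective hf, h3.dvd (Subgroup.card_dvd_of_injective f hf), ?_⟩
  intro q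
  obtain ⟨H, hn, hH1, hH2⟩ := h4 q
  refine ⟨H.comap f, hn.comap f, hH1.dvd (Subgroup.card_comap_dvd_of_injective H f hf), ?_⟩
  rw [Subgroup.index_comap]
  exact hH2.dvd (Subgroup.relIndex_dvd_index_of_normal _ _)

lemma Tow.of_surjective {n : ℕ} {G Q : Type} [Group G] [Group Q] (f : G →* Q)
    (hf : Function.Surjective f) (h : Tow n G) : Tow n Q := by
  obtain ⟨h1, h2, h3, h4⟩ := h
  have : Finite Q := Finite.of_surjective f hf
  refine ⟨this, Group.isSolvable_of_surjective hf, h3.dvd (Subgroup.card_dvd_of_surjective f hf), ?_⟩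
  intro q
  obtain ⟨H, hn, hH1, hH2⟩ := h4 q
  exact ⟨H.map f, hn.map f hf, hH1.dvd (Subgroup.card_map_dvd _ _),
    hH2.dvd (Subgroup.index_map_dvd H hf)⟩

lemma Tow.prod {n : ℕ} {G G' : Type} [Group G] [Group G'] (h : Tow n G) (h' : Tow n G') :
    Tow n (G × G') := by
  obtain ⟨h1, h2, h3, h4⟩ := h
  obtain ⟨h1', h2', h3', h4'⟩ := h'
  refine ⟨inferInstance, inferInstance, ?_, ?_⟩
  · rw [Nat.card_prod]; exact h3.mul h3'
  · intro q
    obtain ⟨H, hn, hH1, hH2⟩ := h4 q
    obtain ⟨H', hn', hH1', hH2'⟩ := h4' q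
    refine ⟨H.prod H', inferInstance, ?_, ?_⟩
    · rw [Nat.card_congr (Subgroup.prodEquiv H H').toEquiv, Nat.card_prod]
      exact hH1.mul hH1'
    · rw [Subgroup.index_prod]
      exact hH2.mul hH2'

lemma Tow.mono {n m : ℕ} {G : Type} [Group G] (h : Tow n G) (hmn : m ≤ n) : Tow m G :=
  ⟨h.1, h.2.1, h.2.2.1.mono hmn, h.2.2.2⟩

lemma Tow.inf {n : ℕ} {G : Type} [Group G] (N1 N2 : Subgroup G) [N1.Normal] [N2.Normal]
    (h1 : Tow n (G ⧸ N1)) (h2 : Tow n (G ⧸ N2)) : Tow n (G ⧸ (N1 ⊓ N2)) := by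
  let g : G →* (G ⧸ N1) × (G ⧸ N2) := (QuotientGroup.mk' N1).prod (QuotientGroup.mk' N2)
  have hker : g.ker = N1 ⊓ N2 := by
    rw [MonoidHom.ker_prod, QuotientGroup.ker_mk', QuotientGroup.ker_mk']
  have h3 : Tow n g.range := (h1.prod h2).of_injective g.range.subtype g.range.subtype_injective
  have h4 : Tow n (G ⧸ g.ker) :=
    h3.of_injective (QuotientGroup.quotientKerEquivRange g).toMonoidHom
      (QuotientGroup.quotientKerEquivRange g).injective
  exact h4.of_surjective (QuotientGroup.quotientMulEquivOfEq hker).toMonoidHom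
    (QuotientGroup.quotientMulEquivOfEq hker).surjective

/-- A trivial group is in each class. -/
lemma Tow.trivial {n : ℕ} {G : Type} [Group G] [Subsingleton G] : Tow n G := by
  refine ⟨inferInstance, inferInstance, ?_, ?_⟩
  · rw [Nat.card_unique]; exact Ge.one n
  · intro q
    refine ⟨⊥, inferInstance, ?_, ?_⟩
    · rw [Subgroup.card_bot]; exact Ge.one q
    · rw [Subgroup.index_bot, Nat.card_unique]; exact Lt.one q

/-- Extension by an `r`-group with `r` at least all other primes. -/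
lemma Tow.ext {n r : ℕ} {G : Type} [Group G] [Finite G] (N : Subgroup G) [N.Normal]
    (hs : Group.IsSolvable G)
    (hr : ∀ t : ℕ, t.Prime → t ∣ Nat.card N → t = r) (hnr : n ≤ r)
    (hG : ∀ t : ℕ, t.Prime → t ∣ Nat.card (G ⧸ N) → t ≤ r) (h : Tow n (G ⧸ N)) : Tow n G := by
  have hcard : Nat.card G = Nat.card (G ⧸ N) * Nat.card N := Subgroup.card_eq_card_quotient_mul_card_subgroup N
  refine ⟨inferInstance, hs, ?_, ?_⟩
  · rw [hcard]
    apply h.2.2.1.mul
    intro t ht htN
    rw [hr t ht htN]; exact hnr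
  · intro q
    by_cases hq : q ≤ r
    · obtain ⟨H, hn, hH1, hH2⟩ := h.2.2.2 q
      refine ⟨H.comap (QuotientGroup.mk' N), hn.comap _, ?_, ?_⟩
      · have h1 : Nat.card (H.comap (QuotientGroup.mk' N)) = Nat.card N * Nat.card H := by
          have h2 := Subgroup.card_mul_index (H.comap (QuotientGroup.mk' N))
          have h3 := Subgroup.card_mul_index H
          rw [Subgroup.index_comap_of_surjective _ (QuotientGroup.mk'_surjective N)] at h2
          have h5 : 0 < H.index := Nat.pos_of_ne_zero Subgroup.index_ne_zero_of_finite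
          apply Nat.eq_of_mul_eq_mul_right h5
          rw [h2, hcard, ← h3]; ring
        rw [h1]
        apply Ge.mul _ hH1
        intro t ht htN
        rw [hr t ht htN]; exact hq
      · rw [Subgroup.index_comap_of_surjective _ (QuotientGroup.mk'_surjective N)]
        exact hH2
    · refine ⟨⊥, inferInstance, ?_, ?_⟩
      · rw [Subgroup.card_bot]; exact Ge.one q
      · rw [Subgroup.index_bot, hcard]
        apply Lt.mul
        · intro t ht htN
          have := hG t ht htN
          omega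
        · intro t ht htN
          have := hr t ht htN
          omega

/-- There is a largest prime divisor. -/
lemma exists_largest {m : ℕ} (hm : m ≠ 0) (hm1 : m ≠ 1) :
    ∃ s : ℕ, s.Prime ∧ s ∣ m ∧ ∀ t : ℕ, t.Prime → t ∣ m → t ≤ s := by
  have hne : m.primeFactors.Nonempty := by
    rw [Nat.nonempty_primeFactors]; omega
  refine ⟨m.primeFactors.max' hne, ?_, ?_, ?_⟩
  · exact Nat.prime_of_mem_primeFactors (m.primeFactors.max'_mem hne)
  · exact Nat.dvd_of_mem_primeFactors (m.primeFactors.max'_mem hne)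
  · intro t ht htm
    exact m.primeFactors.le_max' t (Nat.mem_primeFactors.mpr ⟨ht, htm, hm⟩)

end Pool.Agent.Schunck
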