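import Pool.Agent.Schunck.Saturation

set_option autoImplicit false

namespace Pool.Agent.Schunck

/-- Existence and structure of minimal normal subgroups. -/
lemma exists_minNormal (G : Type) [Group G] [Finite G] (hs : Group.IsSolvable G) [Nontrivial G] :
    ∃ N : Subgroup G, N.Normal ∧ N ≠ ⊥ ∧
      (∀ K : Subgroup G, K.Normal → K ≤ N → K = ⊥ ∨ K = N) ∧
      (∀ a ∈ N, ∀ b ∈ N, a * b = b * a) ∧
      ∃ r : ℕ, r.Prime ∧ ∀ t : ℕ, t.Prime → t ∣ Nat.card N → t = r := by
  classical
  let C : Set (Subgroup G) := {N | N.Normal ∧ N ≠ ⊥}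
  have hC : C.Nonempty := ⟨⊤, inferInstance, top_ne_bot⟩
  obtain ⟨N, hNC, hN⟩ := (Set.toFinite C).exists_minimal hC
  obtain ⟨hNn, hNb⟩ := hNC
  have hmin : ∀ K : Subgroup G, K.Normal → K ≤ N → K = ⊥ ∨ K = N := by
    intro K hK hKN
    by_cases hKb : K = ⊥
    · exact Or.inl hKb
    · exact Or.inr (le_antisymm hKN (hN ⟨hK, hKb⟩ hKN))
  have hcomm : ∀ a ∈ N, ∀ b ∈ N, a * b = b * a := by
    have h1 : ⁅N, N⁆ < N := Group.IsSolvable.commutator_lt_of_ne_bot hNb
    have h2 : ⁅N, N⁆ = ⊥ := by
      rcases hmin ⁅N, N⁆ inferInstance h1.le with h | h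
      · exact h
      · exact absurd h h1.ne
    rw [Subgroup.commutator_eq_bot_iff_le_centralizer] at h2
    intro a ha b hb
    exact ((Subgroup.mem_centralizer_iff.mp (h2 hb)) a ha)
  refine ⟨N, hNn, hNb, hmin, hcomm, ?_⟩
  have hcard : Nat.card N ≠ 1 := fun h => hNb (Subgroup.card_eq_one.mp h)
  obtain ⟨r, hr, hrd⟩ := Nat.exists_prime_and_dvd hcard
  have : Fact r.Prime := ⟨hr⟩
  let K : Subgroup G :=
    { carrier := {x | x ∈ N ∧ x ^ r = 1}
      one_mem' := ⟨N.one_mem, one_pow r⟩
      mul_mem' := by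
        rintro a b ⟨ha, ha'⟩ ⟨hb, hb'⟩
        refine ⟨N.mul_mem ha hb, ?_⟩
        have h1 : Commute a b := hcomm a ha b hb
        rw [h1.mul_pow, ha', hb', one_mul]
      inv_mem' := by
        rintro a ⟨ha, ha'⟩
        refine ⟨N.inv_mem ha, ?_⟩
        rw [inv_pow, ha', inv_one] }
  have hKn : K.Normal := by
    constructor
    rintro a ⟨ha, ha'⟩ g
    refine ⟨hNn.conj_mem a ha g, ?_⟩
    rw [conj_pow, ha', mul_one, mul_inv_cancel]
  have hKN : K ≤ N := fun x hx => hx.1
  have hKb : K ≠ ⊥ := by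
    intro hK
    obtain ⟨x, hx⟩ := exists_prime_orderOf_dvd_card' (G := N) r hrd
    have h1 : (x : G) ∈ K := by
      refine ⟨x.2, ?_⟩
      have := pow_orderOf_eq_one x
      rw [hx] at this
      have h2 := congrArg Subtype.val this
      simpa using h2
    rw [hK, Subgroup.mem_bot] at h1
    have h2 : x = 1 := Subtype.ext h1
    rw [h2, orderOf_one] at hx
    exact hr.one_lt.ne hx
  have hKN' : K = N := (hmin K hKn hKN).resolve_left hKb
  refine ⟨r, hr, ?_⟩
  intro t ht htd
  have : Fact t.Prime := ⟨ht⟩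
  obtain ⟨x, hx⟩ := exists_prime_orderOf_dvd_card' (G := N) t htd
  have h1 : (x : G) ∈ K := by rw [hKN']; exact x.2
  have h2 : x ^ r = 1 := by
    apply Subtype.ext
    simpa using h1.2
  have h3 : t ∣ r := by rw [← hx]; exact orderOf_dvd_of_pow_eq_one h2
  exact (Nat.prime_dvd_prime_iff_eq ht hr).mp h3

/-- Covering subgroups. -/
def Cov (n : ℕ) {G : Type} [Group G] (F : Subgroup G) : Prop :=
  Tow n F ∧ ∀ (S Q : Type) [Group S] [Group Q] (i : S →* G) (f : S →* Q),
    F ≤ i.range → Function.Surjective f → Tow n Q → ∀ q : Q, ∃ s : S, i s ∈ F ∧ f s = q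

lemma Cov.cover {n : ℕ} {G Q : Type} [Group G] [Group Q] {F : Subgroup G} (h : Cov n F)
    (f : G →* Q) (hf : Function.Surjective f) (hQ : Tow n Q) (q : Q) : ∃ x ∈ F, f x = q := by
  obtain ⟨s, hs1, hs2⟩ := h.2 G Q (MonoidHom.id G) f (by intro x _; exact ⟨x, rfl⟩) hf hQ q
  exact ⟨s, hs1, hs2⟩

lemma Cov.eq_top {n : ℕ} {G : Type} [Group G] {F : Subgroup G} (h : Cov n F)
    (hG : Tow n G) : F = ⊤ := by
  rw [eq_top_iff]
  intro x _
  obtain ⟨y, hy, hxy⟩ := h.cover (MonoidHom.id G) (fun x => ⟨x, rfl⟩) hG x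
  have : y = x := hxy
  rwa [← this]

lemma Cov.map {n : ℕ} {G G' : Type} [Group G] [Group G'] {F : Subgroup G} (h : Cov n F)
    (p : G →* G') (hp : Function.Surjective p) : Cov n (F.map p) := by
  constructor
  · exact h.1.of_surjective (p.subgroupMap F) (p.subgroupMap_surjective F)
  · intro S Q _ _ i f hFi hf hQ q
    let S' : Subgroup (G × S) :=
      { carrier := {x | p x.1 = i x.2}
        one_mem' := by simp
        mul_mem' := by
          intro a b ha hb
          simp only [Set.mem_ofPred_eq] at ha hb ⊢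
          simp [ha, hb]
        inv_mem' := by
          intro a ha
          simp only [Set.mem_ofPred_eq] at ha ⊢
          simp [ha] }
    obtain ⟨s, hs1, hs2⟩ := h.2 S' Q ((MonoidHom.fst G S).comp S'.subtype)
      (f.comp ((MonoidHom.snd G S).comp S'.subtype)) (by
        intro x hx
        have h1 : p x ∈ i.range := hFi ⟨x, hx, rfl⟩
        obtain ⟨y, hy⟩ := h1
        exact ⟨⟨(x, y), hy.symm⟩, rfl⟩) (by
        intro q
        obtain ⟨y, hy⟩ := hf q
        obtain ⟨x, hx⟩ := hp (i y)
        exact ⟨⟨(x, y), hx⟩, hy⟩) hQ q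
    refine ⟨s.1.2, ?_, hs2⟩
    have h1 : p s.1.1 = i s.1.2 := s.2
    rw [← h1]
    exact ⟨s.1.1, hs1, rfl⟩

lemma Cov.subgroupOf {n : ℕ} {G : Type} [Group G] {F H : Subgroup G} (h : Cov n F)
    (hFH : F ≤ H) : Cov n (F.subgroupOf H) := by
  constructor
  · exact h.1.of_injective (Subgroup.subgroupOfEquivOfLe hFH).toMonoidHom
      (Subgroup.subgroupOfEquivOfLe hFH).injective
  · intro S Q _ _ i f hFi hf hQ q
    obtain ⟨s, hs1, hs2⟩ := h.2 S Q (H.subtype.comp i) f (by
        intro x hx
        have h1 : (⟨x, hFH hx⟩ : H) ∈ i.range := hFi (by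
          rw [Subgroup.mem_subgroupOf]; exact hx)
        obtain ⟨y, hy⟩ := h1
        exact ⟨y, by
          change H.subtype (i y) = x
          rw [hy]; rfl⟩) hf hQ q
    refine ⟨s, ?_, hs2⟩
    rw [Subgroup.mem_subgroupOf]
    exact hs1

lemma Cov.projector {n : ℕ} {G : Type} [Group G] {F : Subgroup G} (h : Cov n F)
    (N : Subgroup G) [N.Normal] : Tow n ↥(F.map (QuotientGroup.mk' N)) ∧
      ∀ K : Subgroup (G ⧸ N), F.map (QuotientGroup.mk' N) ≤ K → Tow n ↥K →
        K = F.map (QuotientGroup.mk' N) := by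
  have h1 := h.map (QuotientGroup.mk' N) (QuotientGroup.mk'_surjective N)
  refine ⟨h1.1, ?_⟩
  intro K hK hKT
  apply le_antisymm _ hK
  intro x hx
  obtain ⟨s, hs1, hs2⟩ := h1.2 K K K.subtype (MonoidHom.id K) (by
    rw [Subgroup.range_subtype]; exact hK) (fun x => ⟨x, rfl⟩) hKT ⟨x, hx⟩
  have : s = ⟨x, hx⟩ := hs2
  rw [this] at hs1
  exact hs1

lemma Tow.quot_of_surj {n : ℕ} {S G Q : Type} [Group S] [Group G] [Group Q]
    (i : S →* G) (hi : Function.Surjective i) (f : S →* Q) (hf : Function.Surjective f)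
    (hQ : Tow n Q) (L : Subgroup G) [L.Normal] (hL : f.ker.map i ≤ L) : Tow n (G ⧸ L) := by
  have h1 : Tow n (S ⧸ f.ker) := hQ.of_injective
    (QuotientGroup.quotientKerEquivOfSurjective f hf).toMonoidHom
    (QuotientGroup.quotientKerEquivOfSurjective f hf).injective
  apply h1.of_surjective (QuotientGroup.map f.ker L i (Subgroup.map_le_iff_le_comap.mp hL))
  intro y
  obtain ⟨g, rfl⟩ := QuotientGroup.mk'_surjective _ y
  obtain ⟨s, rfl⟩ := hi g
  exact ⟨QuotientGroup.mk' _ s, rfl⟩

/-- Existence of covering subgroups. -/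
lemma exists_cov_aux (n : ℕ) : ∀ (k : ℕ) (G : Type) [Group G] [Finite G],
    Nat.card G ≤ k → Group.IsSolvable G → ∃ F : Subgroup G, Cov n F := by
  intro k
  induction k with
  | zero =>
    intro G _ _ hk
    exact absurd hk (Nat.not_le.mpr Nat.card_pos)
  | succ k ih =>
    intro G _ _ hk hs
    by_cases hT : Tow n G
    · refine ⟨⊤, ?_, ?_⟩
      · exact hT.of_injective (⊤ : Subgroup G).subtype (Subgroup.subtype_injective _)
      · intro S Q _ _ i f _ hf _ q
        obtain ⟨s, hs⟩ := hf q
        exact ⟨s, Subgroup.mem_top _, hs⟩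
    have hnt : Nontrivial G := by
      rcases subsingleton_or_nontrivial G with h | h
      · exact absurd Tow.trivial hT
      · exact h
    obtain ⟨N, hNn, hNb, hmin, hcomm, r, hr, hrN⟩ := exists_minNormal G hs
    have hcard := Subgroup.card_eq_card_quotient_mul_card_subgroup N
    have hNgt : 1 < Nat.card N := by
      have h1 : Nat.card N ≠ 1 := fun h => hNb (Subgroup.card_eq_one.mp h)
      have h2 : 0 < Nat.card N := Nat.card_pos
      omega
    have hlt : Nat.card (G ⧸ N) ≤ k := by
      have : Nat.card (G ⧸ N) < Nat.card G := by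
        rw [hcard]
        have : 0 < Nat.card (G ⧸ N) := Nat.card_pos
        nlinarith
      omega
    obtain ⟨F1', hF1'⟩ := ih (G ⧸ N) hlt inferInstance
    let F1 : Subgroup G := F1'.comap (QuotientGroup.mk' N)
    by_cases hF1 : F1 = ⊤
    · -- `G/N` is in the class
      have hF1t : F1' = ⊤ := by
        rw [← Subgroup.map_comap_eq_self_of_surjective (QuotientGroup.mk'_surjective N) F1']
        change F1.map _ = ⊤
        rw [hF1]
        exact Subgroup.map_top_of_surjective _ (QuotientGroup.mk'_surjective _)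
      have hTN : Tow n (G ⧸ N) := by
        have h1 := hF1'.1
        rw [hF1t] at h1
        exact h1.of_surjective (⊤ : Subgroup (G ⧸ N)).subtype (fun x => ⟨⟨x, trivial⟩, rfl⟩)
      have hNΦ : ¬ N ≤ frattini G := fun h =>
        hT (Tow.of_quot_frattini (Nat.card G) G le_rfl hs N h hTN)
      have hex : ∃ M : Subgroup G, IsCoatom M ∧ ¬ N ≤ M := by
        by_contra hcon
        push Not at hcon
        apply hNΦ
        rw [frattini, Order.radical, le_iInf_iff]
        intro M
        rw [le_iInf_iff]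
        intro hM
        exact hcon M hM
      obtain ⟨M, hM, hNM⟩ := hex
      have hMN : M ⊔ N = ⊤ := by
        apply hM.2
        rw [lt_iff_le_and_ne]
        refine ⟨le_sup_left, ?_⟩
        intro h
        apply hNM
        rw [h]; exact le_sup_right
      have hmem : ∀ g : G, ∃ m ∈ M, ∃ x ∈ N, m * x = g := by
        intro g
        have h1 : g ∈ M ⊔ N := by rw [hMN]; trivial
        exact Subgroup.mem_sup_of_normal_right.mp h1
      have hMNn : (M ⊓ N).Normal := by
        constructor
        rintro a ⟨ha1, ha2⟩ g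
        obtain ⟨m, hm, x, hx, rfl⟩ := hmem g
        have h1 : m * x * a * (m * x)⁻¹ = m * a * m⁻¹ := by
          have h2 : x * a * x⁻¹ = a := by
            rw [hcomm x hx a ha2]; group
          calc m * x * a * (m * x)⁻¹ = m * (x * a * x⁻¹) * m⁻¹ := by group
            _ = m * a * m⁻¹ := by rw [h2]
        rw [h1]
        exact ⟨M.mul_mem (M.mul_mem hm ha1) (M.inv_mem hm), hNn.conj_mem a ha2 m⟩
      have hMNb : M ⊓ N = ⊥ := by
        rcases hmin (M ⊓ N) hMNn inf_le_right with h | h
        · exact h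
        · exact absurd (h ▸ inf_le_left) hNM
      refine ⟨M, ?_, ?_⟩
      · apply hTN.of_injective ((QuotientGroup.mk' N).comp M.subtype)
        rw [← MonoidHom.ker_eq_bot_iff, eq_bot_iff]
        intro x hx
        rw [MonoidHom.mem_ker] at hx
        have h1 : (x : G) ∈ N := by
          have : QuotientGroup.mk' N (x : G) = 1 := hx
          rwa [← MonoidHom.mem_ker, QuotientGroup.ker_mk'] at this
        have h2 : (x : G) ∈ M ⊓ N := ⟨x.2, h1⟩
        rw [hMNb, Subgroup.mem_bot] at h2
        exact Subtype.ext h2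
      · intro S Q _ _ i f hMi hf hQ q
        rcases hM.le_iff.mp hMi with hi | hi
        · -- surjective
          have his : Function.Surjective i := MonoidHom.range_eq_top.mp hi
          let L : Subgroup G := f.ker.map i
          have hLn : L.Normal := Subgroup.Normal.map inferInstance i his
          have hTL : Tow n (G ⧸ L) := Tow.quot_of_surj i his f hf hQ L le_rfl
          have hLN : N ≤ L := by
            rcases hmin (L ⊓ N) inferInstance inf_le_right with h | h
            · exfalso
              apply hT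
              have h1 := Tow.inf L N hTL hTN
              apply h1.of_injective (QuotientGroup.mk' (L ⊓ N))
              rw [← MonoidHom.ker_eq_bot_iff, QuotientGroup.ker_mk']
              exact h
            · rw [← h]; exact inf_le_left
          obtain ⟨s, rfl⟩ := hf q
          obtain ⟨m, hm, x, hx, hmx⟩ := hmem (i s)
          obtain ⟨l, hl, hlx⟩ := hLN hx
          refine ⟨s * l⁻¹, ?_, ?_⟩
          · rw [map_mul, map_inv, ← hmx, hlx]
            have : m * x * x⁻¹ = m := by group
            rw [this]; exact hm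
          · have h1 : f l = 1 := hl
            rw [map_mul, map_inv, h1]; simp
        · obtain ⟨s, hs⟩ := hf q
          refine ⟨s, ?_, hs⟩
          rw [← hi]
          exact ⟨s, rfl⟩
    · have hlt1 : Nat.card F1 ≤ k := by
        have h1 : Nat.card F1 ≠ Nat.card G := fun h => hF1 (Subgroup.eq_top_of_card_eq F1 h)
        have h2 : Nat.card F1 ≤ Nat.card G :=
          Nat.le_of_dvd Nat.card_pos (Subgroup.card_subgroup_dvd_card F1)
        omega
      obtain ⟨F, hF⟩ := ih F1 hlt1 inferInstance
      refine ⟨F.map F1.subtype, ?_, ?_⟩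
      · exact hF.1.of_surjective (F1.subtype.subgroupMap F) (F1.subtype.subgroupMap_surjective F)
      · intro S Q _ _ i f hFi hf hQ q
        have hA : F1' ≤ ((QuotientGroup.mk' N).comp i).range := by
          intro y hy
          let g : F1 →* F1' := ((QuotientGroup.mk' N).comp F1.subtype).codRestrict F1'
            (fun x => x.2)
          have hg : Function.Surjective g := by
            rintro ⟨z, hz⟩
            obtain ⟨w, rfl⟩ := QuotientGroup.mk'_surjective _ z
            exact ⟨⟨w, hz⟩, rfl⟩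
          obtain ⟨x, hx, hxy⟩ := hF.cover g hg hF1'.1 ⟨y, hy⟩
          obtain ⟨s, hs⟩ := hFi ⟨x, hx, rfl⟩
          refine ⟨s, ?_⟩
          change QuotientGroup.mk' N (i s) = y
          rw [hs]
          exact congrArg Subtype.val hxy
        let S1 : Subgroup S := F1.comap i
        let i1 : S1 →* F1 := (i.comp S1.subtype).codRestrict F1 (fun x => x.2)
        let f1 : S1 →* Q := f.comp S1.subtype
        have hf1 : Function.Surjective f1 := by
          intro q
          obtain ⟨s, hs1, hs2⟩ := hF1'.2 S Q ((QuotientGroup.mk' N).comp i) f hA hf hQ q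
          exact ⟨⟨s, hs1⟩, hs2⟩
        have hi1 : F ≤ i1.range := by
          intro x hx
          obtain ⟨s, hs⟩ := hFi ⟨x, hx, rfl⟩
          refine ⟨⟨s, ?_⟩, ?_⟩
          · change i s ∈ F1
            rw [hs]; exact x.2
          · apply Subtype.ext; exact hs
        obtain ⟨s, hs1, hs2⟩ := hF.2 S1 Q i1 f1 hi1 hf1 hQ q
        exact ⟨s.1, ⟨i1 s, hs1, rfl⟩, hs2⟩

lemma exists_cov (n : ℕ) (G : Type) [Group G] [Finite G] (hs : Group.IsSolvable G) :
    ∃ F : Subgroup G, Cov n F :=
  exists_cov_aux n (Nat.card G) G le_rfl hs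

end Pool.Agent.Schunck
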