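import Pool.Agent.Schunck.Covering

set_option autoImplicit false

namespace Pool.Agent.Schunck

/-- `E` is the (normal) Hall subgroup of `F` for the primes `≥ m`. -/
def HallPart (m : ℕ) {G : Type} [Group G] (E F : Subgroup G) : Prop :=
  E ≤ F ∧ (∀ x ∈ F, ∀ e ∈ E, x * e * x⁻¹ ∈ E) ∧ Ge m (Nat.card E) ∧ Lt m (E.relIndex F)

lemma HallPart.map {m : ℕ} {G G' : Type} [Group G] [Group G'] {E F : Subgroup G}
    (h : HallPart m E F) (p : G →* G') : HallPart m (E.map p) (F.map p) := by
  obtain ⟨h1, h2, h3, h4⟩ := h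
  refine ⟨Subgroup.map_mono h1, ?_, h3.dvd (Subgroup.card_map_dvd _ _), ?_⟩
  · rintro _ ⟨x, hx, rfl⟩ _ ⟨e, he, rfl⟩
    exact ⟨x * e * x⁻¹, h2 x hx e he, by simp⟩
  · rw [← Subgroup.relIndex_comap]
    exact h4.dvd (Subgroup.relIndex_dvd_of_le_left F (Subgroup.le_comap_map _ _))

lemma HallPart.subgroupOf {m : ℕ} {G : Type} [Group G] {E F H : Subgroup G}
    (h : HallPart m E F) (hFH : F ≤ H) : HallPart m (E.subgroupOf H) (F.subgroupOf H) := by
  obtain ⟨h1, h2, h3, h4⟩ := h
  refine ⟨?_, ?_, ?_, ?_⟩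
  · intro x hx
    rw [Subgroup.mem_subgroupOf] at hx ⊢
    exact h1 hx
  · intro x hx e he
    rw [Subgroup.mem_subgroupOf] at hx he ⊢
    exact h2 x hx e he
  · rw [Nat.card_congr (Subgroup.subgroupOfEquivOfLe (h1.trans hFH)).toEquiv]; exact h3
  · rw [Subgroup.relIndex_subgroupOf hFH]; exact h4

lemma HallPart.le {m : ℕ} {G : Type} [Group G] [Finite G] {E F S : Subgroup G}
    (h : HallPart m E F) (hSF : S ≤ F) (hS : Ge m (Nat.card S)) : S ≤ E := by
  obtain ⟨h1, h2, h3, h4⟩ := h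
  have hn : (E.subgroupOf F).Normal := by
    constructor
    intro e he x
    rw [Subgroup.mem_subgroupOf] at he ⊢
    exact h2 x.1 x.2 e.1 he
  have h5 : S.subgroupOf F ≤ E.subgroupOf F := by
    apply hall_le (q := m) hn h4
    rw [Nat.card_congr (Subgroup.subgroupOfEquivOfLe hSF).toEquiv]; exact hS
  intro x hx
  have h6 : (⟨x, hSF hx⟩ : F) ∈ S.subgroupOf F := by
    rw [Subgroup.mem_subgroupOf]; exact hx
  have h7 := h5 h6
  rw [Subgroup.mem_subgroupOf] at h7
  exact h7

lemma eq_one_of_mem {s : ℕ} {G : Type} [Group G] [Finite G] {A B : Subgroup G}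
    (hA : Ge s (Nat.card A)) (hB : Lt s (Nat.card B)) {y : G} (hyA : y ∈ A) (hyB : y ∈ B) :
    y = 1 := by
  have h1 : orderOf y ∣ Nat.card A := by
    have := orderOf_dvd_natCard (⟨y, hyA⟩ : A)
    rwa [Subgroup.orderOf_mk] at this
  have h2 : orderOf y ∣ Nat.card B := by
    have := orderOf_dvd_natCard (⟨y, hyB⟩ : B)
    rwa [Subgroup.orderOf_mk] at this
  rw [← orderOf_eq_one_iff]
  exact Nat.eq_one_of_dvd_coprimes (hA.coprime hB) h1 h2

lemma card_quot_lt {G : Type} [Group G] [Finite G] (N : Subgroup G) (hN : N ≠ ⊥) :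
    Nat.card (G ⧸ N) < Nat.card G := by
  have hcard := Subgroup.card_eq_card_quotient_mul_card_subgroup N
  have hNgt : 1 < Nat.card N := by
    have h1 : Nat.card N ≠ 1 := fun h => hN (Subgroup.card_eq_one.mp h)
    have h2 : 0 < Nat.card N := Nat.card_pos
    omega
  rw [hcard]
  have : 0 < Nat.card (G ⧸ N) := Nat.card_pos
  nlinarith

lemma card_lt_of_ne_top {G : Type} [Group G] [Finite G] (H : Subgroup G) (hH : H ≠ ⊤) :
    Nat.card H < Nat.card G := by
  have h1 : Nat.card H ≠ Nat.card G := fun h => hH (Subgroup.eq_top_of_card_eq H h)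
  have h2 : Nat.card H ≤ Nat.card G :=
    Nat.le_of_dvd Nat.card_pos (Subgroup.card_subgroup_dvd_card H)
  omega

/-- The Hall subgroup for the primes `≥ n + 1` of a `Tow n` covering subgroup is a maximal
`Tow (n+1)`-subgroup. -/
lemma hallPart_max (n : ℕ) : ∀ (k : ℕ) (G : Type) [Group G] [Finite G],
    Nat.card G ≤ k → Group.IsSolvable G → ∀ F E D : Subgroup G, Cov n F →
      HallPart (n + 1) E F → E ≤ D → Tow (n + 1) D → D = E := by
  intro k
  induction k with
  | zero =>
    intro G _ _ hk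
    exact absurd hk (Nat.not_le.mpr Nat.card_pos)
  | succ k ih =>
    intro G _ _ hk hs F E D hF hE hED hD
    by_cases hDF : D ≤ F
    · exact le_antisymm (hE.le hDF hD.2.2.1) hED
    have hnt : Nontrivial G := by
      rcases subsingleton_or_nontrivial G with h | h
      · exfalso
        apply hDF
        intro x _
        rw [Subsingleton.elim x 1]; exact F.one_mem
      · exact h
    obtain ⟨N, hNn, hNb, hmin, hcomm, r, hr, hrN⟩ := exists_minNormal G hs
    have hltN : Nat.card (G ⧸ N) ≤ k := by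
      have := card_quot_lt N hNb
      omega
    -- the quotient argument
    have hquot : ∀ (K : Subgroup G) [K.Normal], K ≠ ⊥ → D ≤ E ⊔ K := by
      intro K _ hK
      have h1 : Nat.card (G ⧸ K) ≤ k := by
        have := card_quot_lt K hK
        omega
      have h2 := ih (G ⧸ K) h1 inferInstance (F.map (QuotientGroup.mk' K))
        (E.map (QuotientGroup.mk' K)) (D.map (QuotientGroup.mk' K))
        (hF.map _ (QuotientGroup.mk'_surjective K)) (hE.map _) (Subgroup.map_mono hED)
        (hD.of_surjective ((QuotientGroup.mk' K).subgroupMap D)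
          ((QuotientGroup.mk' K).subgroupMap_surjective D))
      have h3 : D ≤ (E.map (QuotientGroup.mk' K)).comap (QuotientGroup.mk' K) := by
        rw [← h2]; exact Subgroup.le_comap_map _ _
      rwa [Subgroup.comap_map_eq, QuotientGroup.ker_mk'] at h3
    have hDEN : D ≤ E ⊔ N := hquot N hNb
    by_cases hFN : F ⊔ N = ⊤
    swap
    · -- work inside `F ⊔ N`
      have h1 : Nat.card ↥(F ⊔ N) ≤ k := by
        have := card_lt_of_ne_top (F ⊔ N) hFN
        omega
      have hEF : E ≤ F ⊔ N := hE.1.trans le_sup_left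
      have hDF' : D ≤ F ⊔ N := hDEN.trans (sup_le_sup_right hE.1 N)
      have h2 := ih ↥(F ⊔ N) h1 inferInstance (F.subgroupOf (F ⊔ N)) (E.subgroupOf (F ⊔ N))
        (D.subgroupOf (F ⊔ N)) (hF.subgroupOf le_sup_left) (hE.subgroupOf le_sup_left)
        (by
          intro x hx
          rw [Subgroup.mem_subgroupOf] at hx ⊢
          exact hED hx)
        (hD.of_injective (Subgroup.subgroupOfEquivOfLe hDF').toMonoidHom
          (Subgroup.subgroupOfEquivOfLe hDF').injective)
      apply le_antisymm _ hED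
      intro x hx
      have h3 : (⟨x, hDF' hx⟩ : ↥(F ⊔ N)) ∈ D.subgroupOf (F ⊔ N) := by
        rw [Subgroup.mem_subgroupOf]; exact hx
      rw [h2, Subgroup.mem_subgroupOf] at h3
      exact h3
    -- now `F N = G`
    have hmem : ∀ g : G, ∃ m ∈ F, ∃ x ∈ N, m * x = g := by
      intro g
      have h1 : g ∈ F ⊔ N := by rw [hFN]; trivial
      exact Subgroup.mem_sup_of_normal_right.mp h1
    have hconj : ∀ m ∈ F, ∀ x ∈ N, ∀ a ∈ N, m * x * a * (m * x)⁻¹ = m * a * m⁻¹ := by
      intro m _ x hx a ha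
      have h2 : x * a * x⁻¹ = a := by
        rw [hcomm x hx a ha]; group
      calc m * x * a * (m * x)⁻¹ = m * (x * a * x⁻¹) * m⁻¹ := by group
        _ = m * a * m⁻¹ := by rw [h2]
    have hFNn : (F ⊓ N).Normal := by
      constructor
      rintro a ⟨ha1, ha2⟩ g
      obtain ⟨m, hm, x, hx, rfl⟩ := hmem g
      rw [hconj m hm x hx a ha2]
      exact ⟨F.mul_mem (F.mul_mem hm ha1) (F.inv_mem hm), hNn.conj_mem a ha2 m⟩
    rcases hmin (F ⊓ N) hFNn inf_le_right with hFNb | hFNN
    swap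
    · exfalso
      apply hDF
      have h1 : N ≤ F := hFNN ▸ inf_le_left
      have h2 : F = ⊤ := by
        rw [← hFN, sup_eq_left.mpr h1]
      rw [h2]; exact le_top
    by_cases hU : D ⊓ N = ⊥
    · apply le_antisymm _ hED
      intro d hd
      obtain ⟨e, he, x, hx, hex⟩ := Subgroup.mem_sup_of_normal_right.mp (hDEN hd)
      have h1 : x ∈ D ⊓ N := by
        refine ⟨?_, hx⟩
        have : x = e⁻¹ * d := by rw [← hex]; group
        rw [this]
        exact D.mul_mem (D.inv_mem (hED he)) hd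
      rw [hU, Subgroup.mem_bot] at h1
      rw [← hex, h1, mul_one]; exact he
    -- `r ≥ n + 1`
    have hrn : n + 1 ≤ r := by
      have h1 : Nat.card ↥(D ⊓ N) ≠ 1 := fun h => hU (Subgroup.card_eq_one.mp h)
      obtain ⟨t, ht, htd⟩ := Nat.exists_prime_and_dvd h1
      have h2 : t = r := hrN t ht (htd.trans (Subgroup.card_dvd_of_le inf_le_right))
      subst h2
      exact hD.2.2.1 t ht (htd.trans (Subgroup.card_dvd_of_le inf_le_left))
    have hFtop : F ≠ ⊤ := by
      intro h
      apply hDF; rw [h]; exact le_top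
    have hGT : ¬ Tow n G := fun h => hFtop (hF.eq_top h)
    let φ : F →* G ⧸ N := (QuotientGroup.mk' N).comp F.subtype
    have hφ : Function.Surjective φ := by
      intro y
      obtain ⟨g, rfl⟩ := QuotientGroup.mk'_surjective _ y
      obtain ⟨m, hm, x, hx, rfl⟩ := hmem g
      refine ⟨⟨m, hm⟩, ?_⟩
      change QuotientGroup.mk' N m = QuotientGroup.mk' N (m * x)
      have h1 : QuotientGroup.mk' N x = 1 := by
        rw [← MonoidHom.mem_ker, QuotientGroup.ker_mk']; exact hx
      rw [map_mul, h1, mul_one]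
    have hGN : Tow n (G ⧸ N) := hF.1.of_surjective φ hφ
    have hex : ∃ t : ℕ, t.Prime ∧ t ∣ Nat.card (G ⧸ N) ∧ r < t := by
      by_contra hcon
      push Not at hcon
      exact hGT (Tow.ext (r := r) N hs hrN (by omega) hcon hGN)
    obtain ⟨t, ht, htd, hrt⟩ := hex
    have htF : t ∣ Nat.card F := htd.trans (Subgroup.card_dvd_of_surjective φ hφ)
    obtain ⟨s, hsp, hsd, hsmax⟩ := exists_largest (m := Nat.card F) Nat.card_pos.ne' (by
      intro h; rw [h] at htF
      exact ht.one_lt.ne' (Nat.dvd_one.mp htF))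
    have hrs : r < s := hrt.trans_le (hsmax t ht htF)
    obtain ⟨P', hP'n, hP'1, hP'2⟩ := hF.1.2.2.2 s
    let P : Subgroup G := P'.map F.subtype
    have hPcard : Nat.card P = Nat.card P' :=
      Nat.card_congr (P'.equivMapOfInjective F.subtype F.subtype_injective).symm.toEquiv
    have hPF : P ≤ F := by
      rintro _ ⟨x, _, rfl⟩
      exact x.2
    have hPnF : ∀ x ∈ F, ∀ p ∈ P, x * p * x⁻¹ ∈ P := by
      rintro x hx _ ⟨p, hp, rfl⟩
      exact ⟨⟨x, hx⟩ * p * ⟨x, hx⟩⁻¹, hP'n.conj_mem p hp ⟨x, hx⟩, rfl⟩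
    have hPb : P ≠ ⊥ := by
      intro h
      have h1 : s ∣ Nat.card P' * P'.index := by
        rw [Subgroup.card_mul_index]; exact hsd
      rw [← hPcard, h, Subgroup.card_bot, one_mul] at h1
      exact lt_irrefl s (hP'2 s hsp h1)
    have hPE : P ≤ E := by
      apply hE.le hPF
      rw [hPcard]
      exact hP'1.mono (by omega)
    obtain ⟨Q', hQ'n, hQ'1, hQ'2⟩ := hD.2.2.2 s
    have hPQ : ∀ p (hp : p ∈ P), (⟨p, hED (hPE hp)⟩ : D) ∈ Q' := by
      have h1 : P.subgroupOf D ≤ Q' := by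
        apply hall_le (q := s) hQ'n hQ'2
        rw [Nat.card_congr (Subgroup.subgroupOfEquivOfLe (hPE.trans hED)).toEquiv, hPcard]
        exact hP'1
      intro p hp
      apply h1
      rw [Subgroup.mem_subgroupOf]; exact hp
    have hcommU : ∀ p ∈ P, ∀ u ∈ D ⊓ N, p * u = u * p := by
      intro p hp u hu
      let p' : D := ⟨p, hED (hPE hp)⟩
      let u' : D := ⟨u, hu.1⟩
      have h1 : p' * u' * p'⁻¹ * u'⁻¹ ∈ Q' := by
        have h2 : u' * p'⁻¹ * u'⁻¹ ∈ Q' := hQ'n.conj_mem _ (Q'.inv_mem (hPQ p hp)) u'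
        have h3 := Q'.mul_mem (hPQ p hp) h2
        have h4 : p' * u' * p'⁻¹ * u'⁻¹ = p' * (u' * p'⁻¹ * u'⁻¹) := by group
        rw [h4]; exact h3
      have h2 : p * u * p⁻¹ * u⁻¹ ∈ N := N.mul_mem (hNn.conj_mem u hu.2 p) (N.inv_mem hu.2)
      have h3 : p * u * p⁻¹ * u⁻¹ ∈ Q'.map D.subtype := ⟨_, h1, rfl⟩
      have h4 : p * u * p⁻¹ * u⁻¹ = 1 := by
        apply eq_one_of_mem (s := s) (A := Q'.map D.subtype) (B := N) _ _ h3 h2
        · exact hQ'1.dvd (Subgroup.card_map_dvd _ _)
        · intro t ht htd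
          rw [hrN t ht htd]; exact hrs
      have h5 : p * u = u * p := by
        have : p * u * p⁻¹ * u⁻¹ * (u * p) = p * u := by group
        rw [h4, one_mul] at this
        exact this.symm
      exact h5
    let C : Subgroup G := N ⊓ Subgroup.centralizer (P : Set G)
    have hCmem : ∀ y, y ∈ C ↔ y ∈ N ∧ ∀ p ∈ P, p * y = y * p := by
      intro y
      constructor
      · rintro ⟨h1, h2⟩
        exact ⟨h1, fun p hp => Subgroup.mem_centralizer_iff.mp h2 p hp⟩
      · rintro ⟨h1, h2⟩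
        exact ⟨h1, Subgroup.mem_centralizer_iff.mpr h2⟩
    have hCn : C.Normal := by
      constructor
      intro y hy g
      obtain ⟨hy1, hy2⟩ := (hCmem y).mp hy
      obtain ⟨m, hm, x, hx, rfl⟩ := hmem g
      rw [hconj m hm x hx y hy1, hCmem]
      refine ⟨hNn.conj_mem y hy1 m, ?_⟩
      intro p hp
      have h1 : m⁻¹ * p * m ∈ P := by
        have := hPnF m⁻¹ (F.inv_mem hm) p hp
        rwa [inv_inv] at this
      have h2 := hy2 _ h1
      calc p * (m * y * m⁻¹) = m * ((m⁻¹ * p * m) * y) * m⁻¹ := by group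
        _ = m * (y * (m⁻¹ * p * m)) * m⁻¹ := by rw [h2]
        _ = m * y * m⁻¹ * p := by group
    have hCN : C = N := by
      rcases hmin C hCn inf_le_left with h | h
      · exfalso
        apply hU
        rw [eq_bot_iff, ← h]
        intro u hu
        rw [hCmem]
        exact ⟨hu.2, fun p hp => hcommU p hp u hu⟩
      · exact h
    have hPn : P.Normal := by
      constructor
      intro p hp g
      obtain ⟨m, hm, x, hx, rfl⟩ := hmem g
      have h1 : x ∈ C := by rw [hCN]; exact hx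
      have h2 := ((hCmem x).mp h1).2 p hp
      have h3 : m * x * p * (m * x)⁻¹ = m * p * m⁻¹ := by
        have h4 : x * p * x⁻¹ = p := by rw [← h2]; group
        calc m * x * p * (m * x)⁻¹ = m * (x * p * x⁻¹) * m⁻¹ := by group
          _ = m * p * m⁻¹ := by rw [h4]
      rw [h3]
      exact hPnF m hm p hp
    have h1 := hquot P hPb
    rw [sup_eq_left.mpr hPE] at h1
    exact le_antisymm h1 hED

/-- A covering subgroup for `Tow n` has a Hall subgroup which is a projector for `Tow (n+1)`. -/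
lemma exists_hallPart {n : ℕ} {G : Type} [Group G] {F : Subgroup G} (hF : Tow n F) (m : ℕ) :
    ∃ E : Subgroup G, HallPart m E F ∧ Tow m E := by
  obtain ⟨P', hP'n, hP'1, hP'2⟩ := hF.2.2.2 m
  have hPcard : Nat.card (P'.map F.subtype) = Nat.card P' :=
      Nat.card_congr (P'.equivMapOfInjective F.subtype F.subtype_injective).symm.toEquiv
  have hle : P'.map F.subtype ≤ F := by
    rintro _ ⟨x, _, rfl⟩
    exact x.2
  refine ⟨P'.map F.subtype, ⟨hle, ?_, ?_, ?_⟩, ?_⟩
  · rintro x hx _ ⟨p, hp, rfl⟩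
    exact ⟨⟨x, hx⟩ * p * ⟨x, hx⟩⁻¹, hP'n.conj_mem p hp ⟨x, hx⟩, rfl⟩
  · rw [hPcard]; exact hP'1
  · have h1 : (P'.map F.subtype).subgroupOf F = P' := Subgroup.comap_map_eq_self_of_injective F.subtype_injective P'
    rw [Subgroup.relIndex, h1]; exact hP'2
  · have h1 := hF.of_injective (Subgroup.inclusion hle) (Subgroup.inclusion_injective hle)
    exact ⟨h1.1, h1.2.1, by rw [hPcard]; exact hP'1, h1.2.2.2⟩

/-- `Tow (n+1)` is below `Tow n` in the projector-containment order. -/
lemma tow_succ_ll (n : ℕ) (G : Type) [Group G] [Finite G] (hs : Group.IsSolvable G) :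
    ∃ E F : Subgroup G,
      (∀ (N : Subgroup G) [N.Normal], Tow (n + 1) ↥(E.map (QuotientGroup.mk' N)) ∧
        ∀ K : Subgroup (G ⧸ N), E.map (QuotientGroup.mk' N) ≤ K → Tow (n + 1) ↥K →
          K = E.map (QuotientGroup.mk' N)) ∧
      (∀ (N : Subgroup G) [N.Normal], Tow n ↥(F.map (QuotientGroup.mk' N)) ∧
        ∀ K : Subgroup (G ⧸ N), F.map (QuotientGroup.mk' N) ≤ K → Tow n ↥K →
          K = F.map (QuotientGroup.mk' N)) ∧
      E ≤ F := by
  obtain ⟨F, hF⟩ := exists_cov n G hs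
  obtain ⟨E, hE, hET⟩ := exists_hallPart hF.1 (n + 1)
  refine ⟨E, F, ?_, fun N _ => hF.projector N, hE.1⟩
  intro N _
  refine ⟨hET.of_surjective ((QuotientGroup.mk' N).subgroupMap E)
          ((QuotientGroup.mk' N).subgroupMap_surjective E), ?_⟩
  intro K hK hKT
  exact hallPart_max n (Nat.card (G ⧸ N)) (G ⧸ N) le_rfl inferInstance
    (F.map (QuotientGroup.mk' N)) (E.map (QuotientGroup.mk' N)) K
    (hF.map _ (QuotientGroup.mk'_surjective N)) (hE.map _) hK hKT

end Pool.Agent.Schunck
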