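import Pool.Agent.Schunck.Hall

set_option autoImplicit false

namespace Pool.Agent.Schunck

/-- Schunck classes of finite soluble groups. -/
def IsSchunck (X : (G : Type) → [Group G] → Prop) : Prop :=
  (∀ (G : Type) [Group G], X G → Finite G ∧ Group.IsSolvable G) ∧
    (∀ (G H : Type) [Group G] [Group H], Nonempty (G ≃* H) → X G → X H) ∧
    (∀ (G : Type) [Group G] (N : Subgroup G) [N.Normal], X G → X (G ⧸ N)) ∧
    (∀ (G : Type) [Group G] [Finite G], Group.IsSolvable G →
      (∀ (N : Subgroup G) [N.Normal],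
        (∃ M : Subgroup (G ⧸ N), IsCoatom M ∧ M.normalCore = ⊥) → X (G ⧸ N)) → X G)

/-- Projectors. -/
def Proj (A : (G : Type) → [Group G] → Prop) {G : Type} [Group G] (E : Subgroup G) : Prop :=
  ∀ (N : Subgroup G) [N.Normal],
    A ↥(E.map (QuotientGroup.mk' N)) ∧
    ∀ K : Subgroup (G ⧸ N), E.map (QuotientGroup.mk' N) ≤ K → A ↥K →
      K = E.map (QuotientGroup.mk' N)

/-- The projector-containment order. -/
def LL (B A : (G : Type) → [Group G] → Prop) : Prop :=
  ∀ (G : Type) [Group G] [Finite G], Group.IsSolvable G →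
    ∃ E F : Subgroup G, Proj B E ∧ Proj A F ∧ E ≤ F

lemma tow_isSchunck (n : ℕ) : IsSchunck (fun G [Group G] => Tow n G) := by
  refine ⟨fun G _ h => ⟨h.1, h.2.1⟩, ?_, ?_, ?_⟩
  · rintro G H _ _ ⟨e⟩ h
    exact h.of_surjective e.toMonoidHom e.surjective
  · intro G _ N _ h
    exact h.of_surjective (QuotientGroup.mk' N) (QuotientGroup.mk'_surjective N)
  · intro G _ _ hs h
    exact Tow.schunck G hs h

lemma tow_LL (n : ℕ) : LL (fun G [Group G] => Tow (n + 1) G) (fun G [Group G] => Tow n G) := by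
  intro G _ _ hs
  obtain ⟨E, F, h1, h2, h3⟩ := tow_succ_ll n G hs
  exact ⟨E, F, h1, h2, h3⟩

section

variable {A : (G : Type) → [Group G] → Prop} (hA : IsSchunck A)

include hA

lemma IsSchunck.of_surjective {G Q : Type} [Group G] [Group Q] (f : G →* Q)
    (hf : Function.Surjective f) (h : A G) : A Q :=
  hA.2.1 _ _ ⟨QuotientGroup.quotientKerEquivOfSurjective f hf⟩ (hA.2.2.1 G f.ker h)

lemma IsSchunck.trivial {G : Type} [Group G] [Subsingleton G] : A G := by
  apply hA.2.2.2 G inferInstance
  rintro N _ ⟨M, hM, _⟩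
  exfalso
  apply hM.1
  rw [eq_top_iff]
  intro x _
  have : Subsingleton (G ⧸ N) := by
    refine ⟨fun a b => ?_⟩
    obtain ⟨a, rfl⟩ := QuotientGroup.mk'_surjective _ a
    obtain ⟨b, rfl⟩ := QuotientGroup.mk'_surjective _ b
    rw [Subsingleton.elim a b]
  rw [Subsingleton.elim x 1]; exact M.one_mem

lemma Proj.hom {G Q : Type} [Group G] [Group Q] {E : Subgroup G} (hE : Proj A E) (p : G →* Q)
    (hp : Function.Surjective p) :
    A ↥(E.map p) ∧ ∀ K : Subgroup Q, E.map p ≤ K → A ↥K → K = E.map p := by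
  let e : G ⧸ p.ker ≃* Q := QuotientGroup.quotientKerEquivOfSurjective p hp
  have he : ∀ g : G, e (QuotientGroup.mk' p.ker g) = p g := fun g => rfl
  have h1 : (E.map (QuotientGroup.mk' p.ker)).map e.toMonoidHom = E.map p := by
    rw [Subgroup.map_map]; rfl
  obtain ⟨h2, h3⟩ := hE p.ker
  constructor
  · rw [← h1]
    exact hA.of_surjective (e.toMonoidHom.subgroupMap _) (e.toMonoidHom.subgroupMap_surjective _) h2
  · intro K hK hKA
    have h4 : A ↥(K.comap e.toMonoidHom) := by
      have h5 : (K.map e.symm.toMonoidHom) = K.comap e.toMonoidHom := by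
        ext x
        constructor
        · rintro ⟨y, hy, rfl⟩
          change e (e.symm y) ∈ K
          rw [e.apply_symm_apply]; exact hy
        · intro hx
          exact ⟨e x, hx, e.symm_apply_apply x⟩
      rw [← h5]
      exact hA.of_surjective (e.symm.toMonoidHom.subgroupMap _)
        (e.symm.toMonoidHom.subgroupMap_surjective _) hKA
    have h6 := h3 (K.comap e.toMonoidHom) (by
      rw [← Subgroup.map_le_iff_le_comap, h1]; exact hK) h4
    have h7 := congrArg (Subgroup.map e.toMonoidHom) h6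
    have h8 : (K.comap e.toMonoidHom).map e.toMonoidHom = K :=
      Subgroup.map_comap_eq_self_of_surjective (f := e.toMonoidHom) e.surjective K
    rw [h8, h1] at h7
    exact h7

/-- If `Z_r ∈ A` then all `r`-groups are in `A`. -/
lemma IsSchunck.pgroup {r : ℕ} [Fact r.Prime]
    (hZ : ∀ (C : Type) [Group C], Nat.card C = r → A C) {G : Type} [Group G] [Finite G]
    (hG : IsPGroup r G) : A G := by
  have : Group.IsNilpotent G := hG.isNilpotent
  apply hA.2.2.2 G inferInstance
  rintro N _ ⟨X, hX, hXc⟩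
  have hp : IsPGroup r (G ⧸ N) := hG.to_quotient N
  have : Group.IsNilpotent (G ⧸ N) := hp.isNilpotent
  have hXn : X.Normal :=
    Subgroup.NormalizerCondition.normal_of_coatom X Group.normalizerCondition_of_isNilpotent hX
  rw [Subgroup.normalCore_eq_self] at hXc
  subst hXc
  have hnt : Nontrivial (G ⧸ N) := by
    by_contra h
    rw [not_nontrivial_iff_subsingleton] at h
    apply hX.1
    rw [eq_top_iff]
    intro x _
    exact Subsingleton.elim x 1
  have hd : r ∣ Nat.card (G ⧸ N) := by
    obtain ⟨m, hm⟩ := IsPGroup.iff_card.mp hp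
    rw [hm]
    apply dvd_pow_self
    rintro rfl
    rw [pow_zero] at hm
    have := (Nat.card_eq_one_iff_unique.mp hm).1
    exact not_subsingleton _ this
  obtain ⟨x, hx⟩ := exists_prime_orderOf_dvd_card' r hd
  have h1 : Subgroup.zpowers x = ⊤ := by
    apply hX.2
    rw [bot_lt_iff_ne_bot]
    intro h
    rw [Subgroup.zpowers_eq_bot] at h
    rw [h, orderOf_one] at hx
    exact (Fact.out : r.Prime).one_lt.ne hx
  apply hZ
  rw [← hx, ← Nat.card_zpowers, h1]
  exact (Nat.card_congr Subgroup.topEquiv.toEquiv).symm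

/-- Product with a central subgroup of order dividing `r`. -/
lemma IsSchunck.central {r : ℕ} [Fact r.Prime]
    (hZ : ∀ (C : Type) [Group C], Nat.card C = r → A C) {L : Type} [Group L] [Finite L]
    (hs : Group.IsSolvable L) (E : Subgroup L) (hE : A E) (z : L) (hz : ∀ g : L, g * z = z * g)
    (hzr : z ^ r = 1) (hEz : E ⊔ Subgroup.zpowers z = ⊤) : A L := by
  apply hA.2.2.2 L hs
  rintro N _ ⟨X, hX, hXc⟩
  let π := QuotientGroup.mk' N
  have hπ : Function.Surjective π := QuotientGroup.mk'_surjective N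
  have hzn : ∀ y ∈ Subgroup.zpowers (π z), ∀ g, g * y = y * g := by
    rintro y ⟨m, rfl⟩ g
    obtain ⟨g, rfl⟩ := hπ g
    have h1 : Commute g z := hz g
    have h2 := (h1.zpow_right m).eq
    have h3 := congrArg π h2
    simpa using h3
  have hzn' : (Subgroup.zpowers (π z)).Normal := by
    constructor
    intro y hy g
    rw [hzn y hy g]
    simpa using hy
  have hzzn : (Subgroup.zpowers z).Normal := by
    constructor
    rintro y ⟨m, rfl⟩ g
    have h1 : Commute g z := hz g
    have h2 := (h1.zpow_right m).eq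
    change g * z ^ m * g⁻¹ ∈ _
    rw [h2]
    simp only [mul_inv_cancel_right]
    exact ⟨m, rfl⟩
  by_cases h1 : π z = 1
  · apply hA.of_surjective (π.comp E.subtype) _ hE
    intro y
    obtain ⟨g, rfl⟩ := hπ y
    have h2 : g ∈ E ⊔ Subgroup.zpowers z := by rw [hEz]; trivial
    obtain ⟨e, he, w, hw, rfl⟩ := Subgroup.mem_sup_of_normal_right.mp h2
    refine ⟨⟨e, he⟩, ?_⟩
    obtain ⟨m, rfl⟩ := hw
    change π e = π (e * z ^ m)
    rw [map_mul, map_zpow, h1, one_zpow, mul_one]
  · have h2 : π z ∉ X := by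
      intro h
      apply h1
      have h3 : Subgroup.zpowers (π z) ≤ X := by
        rw [Subgroup.zpowers_le]; exact h
      have h4 : Subgroup.zpowers (π z) ≤ X.normalCore := Subgroup.normal_le_normalCore.mpr h3
      rw [hXc, le_bot_iff, Subgroup.zpowers_eq_bot] at h4
      exact h4
    have h3 : X ⊔ Subgroup.zpowers (π z) = ⊤ := by
      apply hX.2
      rw [lt_iff_le_and_ne]
      refine ⟨le_sup_left, ?_⟩
      intro h
      apply h2
      rw [h]
      exact (le_sup_right : _ ≤ X ⊔ Subgroup.zpowers (π z)) (Subgroup.mem_zpowers _)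
    have hXn : X.Normal := by
      constructor
      intro x hx g
      have h4 : g ∈ X ⊔ Subgroup.zpowers (π z) := by rw [h3]; trivial
      obtain ⟨e, he, w, hw, rfl⟩ := Subgroup.mem_sup_of_normal_right.mp h4
      have h5 : e * w * x * (e * w)⁻¹ = e * x * e⁻¹ := by
        have h6 : w * x * w⁻¹ = x := by
          rw [← hzn w hw x]; group
        calc e * w * x * (e * w)⁻¹ = e * (w * x * w⁻¹) * e⁻¹ := by group
          _ = e * x * e⁻¹ := by rw [h6]
      rw [h5]
      exact X.mul_mem (X.mul_mem he hx) (X.inv_mem he)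
    rw [Subgroup.normalCore_eq_self] at hXc
    rw [hXc, bot_sup_eq] at h3
    apply hZ
    have h4 : orderOf (π z) = r := by
      apply orderOf_eq_prime _ h1
      rw [← map_pow, hzr, map_one]
    rw [← h4, ← Nat.card_zpowers, h3]
    exact (Nat.card_congr Subgroup.topEquiv.toEquiv).symm

lemma IsSchunck.central' {r : ℕ} [Fact r.Prime]
    (hZ : ∀ (C : Type) [Group C], Nat.card C = r → A C) {X : Type} [Group X] [Finite X]
    (hs : Group.IsSolvable X) (E : Subgroup X) (hE : A E) (z : X) (hz : ∀ g ∈ E, g * z = z * g)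
    (hzr : z ^ r = 1) : A ↥(E ⊔ Subgroup.zpowers z) := by
  have hzmem : z ∈ E ⊔ Subgroup.zpowers z :=
    (le_sup_right : _ ≤ E ⊔ Subgroup.zpowers z) (Subgroup.mem_zpowers _)
  have hcent : ∀ g ∈ E ⊔ Subgroup.zpowers z, g * z = z * g := by
    have h1 : E ⊔ Subgroup.zpowers z ≤ Subgroup.centralizer {z} := by
      apply sup_le
      · intro g hg
        rw [Subgroup.mem_centralizer_singleton_iff]
        exact hz g hg
      · rw [Subgroup.zpowers_le, Subgroup.mem_centralizer_singleton_iff]
    intro g hg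
    exact Subgroup.mem_centralizer_singleton_iff.mp (h1 hg)
  apply hA.central hZ (L := ↥(E ⊔ Subgroup.zpowers z)) inferInstance
    (E.subgroupOf (E ⊔ Subgroup.zpowers z)) _ ⟨z, hzmem⟩
  · intro g
    exact Subtype.ext (hcent g.1 g.2)
  · exact Subtype.ext hzr
  · rw [eq_top_iff]
    rintro ⟨g, hg⟩ _
    have h1 : ∀ g ∈ E ⊔ Subgroup.zpowers z, ∀ hg : g ∈ E ⊔ Subgroup.zpowers z,
        (⟨g, hg⟩ : ↥(E ⊔ Subgroup.zpowers z)) ∈ E.subgroupOf (E ⊔ Subgroup.zpowers z) ⊔
          Subgroup.zpowers ⟨z, hzmem⟩ := by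
      intro g hg'
      rw [Subgroup.sup_eq_closure] at hg'
      induction hg' using Subgroup.closure_induction with
      | mem x hx =>
        intro hg
        rcases hx with hx | hx
        · apply (le_sup_left : _ ≤ E.subgroupOf (E ⊔ Subgroup.zpowers z) ⊔
            Subgroup.zpowers ⟨z, hzmem⟩)
          rw [Subgroup.mem_subgroupOf]; exact hx
        · apply (le_sup_right : _ ≤ E.subgroupOf (E ⊔ Subgroup.zpowers z) ⊔
            Subgroup.zpowers ⟨z, hzmem⟩)
          obtain ⟨m, rfl⟩ := hx
          exact ⟨m, Subtype.ext (by simp)⟩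
      | one => intro hg; exact Subgroup.one_mem _
      | mul x y hx hy ihx ihy =>
        intro hg
        have hx' : x ∈ E ⊔ Subgroup.zpowers z := by
          rw [Subgroup.sup_eq_closure]; exact hx
        have hy' : y ∈ E ⊔ Subgroup.zpowers z := by
          rw [Subgroup.sup_eq_closure]; exact hy
        exact Subgroup.mul_mem _ (ihx hx') (ihy hy')
      | inv x hx ihx =>
        intro hg
        have hx' : x ∈ E ⊔ Subgroup.zpowers z := by
          rw [Subgroup.sup_eq_closure]; exact hx
        exact Subgroup.inv_mem _ (ihx hx')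
    exact h1 g hg hg
  · exact hA.2.1 _ _ ⟨(Subgroup.subgroupOfEquivOfLe le_sup_left).symm⟩ hE

end

end Pool.Agent.Schunck
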