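import Pool.Agent.Schunck.Basic

set_option autoImplicit false

namespace Pool.Agent.Schunck

lemma pgroup_prime_dvd {s : ℕ} [Fact s.Prime] {G : Type} [Group G] [Finite G] (P : Subgroup G)
    (hP : IsPGroup s P) {t : ℕ} (ht : t.Prime) (htP : t ∣ Nat.card P) : t = s := by
  obtain ⟨m, hm⟩ := IsPGroup.iff_card.mp hP
  rw [hm] at htP
  exact (Nat.prime_dvd_prime_iff_eq ht Fact.out).mp (ht.dvd_of_dvd_pow htP)

/-- Saturation. -/
lemma Tow.of_quot_frattini {n : ℕ} : ∀ (k : ℕ) (G : Type) [Group G] [Finite G],
    Nat.card G ≤ k → Group.IsSolvable G →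
    ∀ (N : Subgroup G) [N.Normal], N ≤ frattini G → Tow n (G ⧸ N) → Tow n G := by
  intro k
  induction k with
  | zero =>
    intro G _ _ hk
    exact absurd hk (Nat.not_le.mpr Nat.card_pos)
  | succ k ih =>
    intro G _ _ hk hs N _ hN hT
    by_cases h1 : Nat.card G = 1
    · have : Subsingleton G := (Nat.card_eq_one_iff_unique.mp h1).1
      exact Tow.trivial
    obtain ⟨s, hsp, hsd, hsmax⟩ := exists_largest Nat.card_pos.ne' h1
    have : Fact s.Prime := ⟨hsp⟩
    let P : Sylow s G := default
    have hPp : ∀ t : ℕ, t.Prime → t ∣ Nat.card P → t = s := fun t ht htP =>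
      pgroup_prime_dvd P.1 P.2 ht htP
    obtain ⟨H', hn', hH1, hH2⟩ := hT.2.2.2 s
    let H : Subgroup G := H'.comap (QuotientGroup.mk' N)
    have hHn : H.Normal := hn'.comap _
    have hHi : H.index = H'.index :=
      Subgroup.index_comap_of_surjective _ (QuotientGroup.mk'_surjective N)
    have hPH : (P : Subgroup G) ≤ H := by
      apply hall_le (q := s) hHn
      · rw [hHi]; exact hH2
      · intro t ht htP
        exact (hPp t ht htP).ge
    have hNH : N ≤ H := by
      intro x hx
      change QuotientGroup.mk' N x ∈ H'
      have : QuotientGroup.mk' N x = 1 := by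
        rw [← MonoidHom.mem_ker, QuotientGroup.ker_mk']; exact hx
      rw [this]; exact H'.one_mem
    have hcardH : N.relIndex H = Nat.card H' := by
      have h2 := Subgroup.relIndex_mul_index hNH
      have h3 := Subgroup.card_mul_index H'
      have h4 : N.index = Nat.card (G ⧸ N) := Subgroup.index_eq_card N
      have h5 : 0 < H'.index := Nat.pos_of_ne_zero Subgroup.index_ne_zero_of_finite
      apply Nat.eq_of_mul_eq_mul_right h5
      rw [← hHi, h2, h4, hHi, h3]
    have hdvd : Nat.card (G ⧸ N) ∣ Nat.card G := Subgroup.card_quotient_dvd_card N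
    have hPN : (P : Subgroup G) ⊔ N = H := by
      apply le_antisymm (sup_le hPH hNH)
      rw [← Subgroup.relIndex_eq_one]
      by_contra hne
      obtain ⟨t, ht, htd⟩ := Nat.exists_prime_and_dvd hne
      have h2 : t ∣ Nat.card H' := by
        rw [← hcardH]
        exact htd.trans (Subgroup.relIndex_dvd_of_le_left H le_sup_right)
      have h3 : s ≤ t := hH1 t ht h2
      have h4 : t ≤ s := hsmax t ht ((h2.trans (Subgroup.card_subgroup_dvd_card H')).trans hdvd)
      have h5 : t = s := le_antisymm h4 h3
      subst h5
      have h6 : t ∣ (P : Subgroup G).index := by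
        have h7 := Subgroup.relIndex_dvd_index_of_le (sup_le hPH hNH)
        exact (htd.trans h7).trans (Subgroup.index_dvd_of_le le_sup_left)
      exact P.not_dvd_index h6
    have hPnorm : (P : Subgroup G).Normal := by
      have h2 := Sylow.normalizer_sup_eq_top' P hPH
      rw [← hPN] at h2
      have h3 : Subgroup.normalizer ((P : Subgroup G) : Set G) ⊔ frattini G = ⊤ := by
        rw [eq_top_iff, ← h2]
        apply sup_le le_sup_left
        apply sup_le
        · exact le_trans Subgroup.le_normalizer le_sup_left
        · exact hN.trans le_sup_right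
      have h4 := frattini_nongenerating h3
      exact Subgroup.normalizer_eq_top_iff.mp h4
    have hsP : s ∣ Nat.card (P : Subgroup G) := P.dvd_card_of_dvd_card hsd
    have hns : n ≤ s := by
      by_cases h2 : s ∣ Nat.card (G ⧸ N)
      · exact hT.2.2.1 s hsp h2
      · exfalso
        have h3 : (P : Subgroup G) ≤ N := by
          have h4 : (P : Subgroup G).map (QuotientGroup.mk' N) = ⊥ := by
            rw [← Subgroup.card_eq_one]
            by_contra hne
            obtain ⟨t, ht, htd⟩ := Nat.exists_prime_and_dvd hne
            have h5 : t = s := hPp t ht (htd.trans (Subgroup.card_map_dvd _ _))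
            subst h5
            exact h2 (htd.trans (Subgroup.card_subgroup_dvd_card _))
          have h5 := (Subgroup.map_eq_bot_iff _).mp h4
          rwa [QuotientGroup.ker_mk'] at h5
        obtain ⟨K, hK⟩ := Subgroup.exists_right_complement'_of_coprime (N := (P : Subgroup G))
          P.card_coprime_index
        have h6 : K ⊔ frattini G = ⊤ := by
          rw [eq_top_iff, ← hK.sup_eq_top]
          apply sup_le
          · exact (h3.trans hN).trans le_sup_right
          · exact le_sup_left
        have h7 := frattini_nongenerating h6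
        rw [h7] at hK
        have h8 : (P : Subgroup G) = ⊥ := by
          have := hK.isCompl.disjoint
          exact disjoint_top.mp this
        rw [h8, Subgroup.card_bot] at hsP
        exact hsp.one_lt.ne' (Nat.dvd_one.mp hsP)
    have hcard := Subgroup.card_eq_card_quotient_mul_card_subgroup (P : Subgroup G)
    have hPgt : 1 < Nat.card (P : Subgroup G) := by
      have : 0 < Nat.card (P : Subgroup G) := Nat.card_pos
      have h9 := Nat.le_of_dvd this hsP
      have := hsp.two_le
      omega
    have hlt : Nat.card (G ⧸ (P : Subgroup G)) ≤ k := by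
      have : Nat.card (G ⧸ (P : Subgroup G)) < Nat.card G := by
        rw [hcard]
        have : 0 < Nat.card (G ⧸ (P : Subgroup G)) := Nat.card_pos
        nlinarith
      omega
    have hNm : (N.map (QuotientGroup.mk' (P : Subgroup G))).Normal :=
      Subgroup.Normal.map inferInstance _ (QuotientGroup.mk'_surjective _)
    have hT2 : Tow n (G ⧸ (P : Subgroup G)) := by
      apply ih (G ⧸ (P : Subgroup G)) hlt inferInstance (N.map (QuotientGroup.mk' (P : Subgroup G)))
      · rw [Subgroup.map_le_iff_le_comap]
        exact hN.trans (frattini_le_comap_frattini_of_surjective (QuotientGroup.mk'_surjective _))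
      · apply Tow.of_surjective (QuotientGroup.map N (N.map (QuotientGroup.mk' (P : Subgroup G)))
          (QuotientGroup.mk' (P : Subgroup G)) (Subgroup.le_comap_map _ _)) _ hT
        intro y
        obtain ⟨y1, rfl⟩ := QuotientGroup.mk'_surjective _ y
        obtain ⟨g, rfl⟩ := QuotientGroup.mk'_surjective _ y1
        exact ⟨QuotientGroup.mk' N g, rfl⟩
    apply Tow.ext (r := s) (P : Subgroup G) hs hPp hns _ hT2
    intro t ht htd
    exact hsmax t ht (htd.trans (Subgroup.card_quotient_dvd_card _))

/-- Schunck property of `Tow n`. -/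
lemma Tow.schunck {n : ℕ} (G : Type) [Group G] [Finite G] (hs : Group.IsSolvable G)
    (h : ∀ (N : Subgroup G) [N.Normal],
      (∃ M : Subgroup (G ⧸ N), IsCoatom M ∧ M.normalCore = ⊥) → Tow n (G ⧸ N)) : Tow n G := by
  classical
  let C : Set (Subgroup G) := {N | ∃ _ : N.Normal, Tow n (G ⧸ N)}
  have hC : C.Nonempty := by
    refine ⟨⊤, inferInstance, ?_⟩
    have : Subsingleton (G ⧸ (⊤ : Subgroup G)) := QuotientGroup.subsingleton_quotient_top
    exact Tow.trivial
  obtain ⟨N0, hN0C, hN0⟩ := (Set.toFinite C).exists_minimal hC
  obtain ⟨hN0n, hN0T⟩ := hN0C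
  apply Tow.of_quot_frattini (Nat.card G) G le_rfl hs N0 _ hN0T
  rw [frattini, Order.radical]
  rw [le_iInf_iff]
  intro M
  rw [le_iInf_iff]
  intro hM
  have h1 : Tow n (G ⧸ M.normalCore) := by
    apply h
    refine ⟨M.map (QuotientGroup.mk' M.normalCore), ?_, ?_⟩
    · have hM1 : (M.map (QuotientGroup.mk' M.normalCore)).comap (QuotientGroup.mk' M.normalCore)
          = M := by
        rw [Subgroup.comap_map_eq_self]
        rw [QuotientGroup.ker_mk']; exact Subgroup.normalCore_le M
      constructor
      · intro hT
        apply hM.1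
        rw [← hM1, hT]; rfl
      · intro K hK
        have h2 : M < K.comap (QuotientGroup.mk' M.normalCore) := by
          rw [lt_iff_le_and_ne]
          constructor
          · rw [← Subgroup.map_le_iff_le_comap]; exact hK.le
          · intro h3
            apply hK.ne
            have h5 := congrArg (Subgroup.map (QuotientGroup.mk' M.normalCore)) h3
            rwa [Subgroup.map_comap_eq_self_of_surjective (QuotientGroup.mk'_surjective _)] at h5
        have h3 := hM.2 _ h2
        rw [← Subgroup.map_comap_eq_self_of_surjective (QuotientGroup.mk'_surjective M.normalCore) K,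
          h3]
        exact Subgroup.map_top_of_surjective _ (QuotientGroup.mk'_surjective _)
    · rw [eq_bot_iff]
      have h4 : ((M.map (QuotientGroup.mk' M.normalCore)).normalCore).comap
          (QuotientGroup.mk' M.normalCore) ≤ M.normalCore := by
        have : (((M.map (QuotientGroup.mk' M.normalCore)).normalCore).comap
          (QuotientGroup.mk' M.normalCore)).Normal := Subgroup.Normal.comap inferInstance _
        rw [Subgroup.normal_le_normalCore]
        refine le_trans (Subgroup.comap_mono (Subgroup.normalCore_le _)) ?_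
        rw [Subgroup.comap_map_eq_self]
        rw [QuotientGroup.ker_mk']; exact Subgroup.normalCore_le M
      rw [← Subgroup.map_comap_eq_self_of_surjective (QuotientGroup.mk'_surjective M.normalCore)
        (M.map (QuotientGroup.mk' M.normalCore)).normalCore]
      rw [Subgroup.map_le_iff_le_comap]
      refine h4.trans ?_
      intro x hx
      change QuotientGroup.mk' _ x = 1
      rw [← MonoidHom.mem_ker, QuotientGroup.ker_mk']; exact hx
  have h2 : Tow n (G ⧸ (N0 ⊓ M.normalCore)) := hN0T.inf _ _ h1
  have h3 : N0 ⊓ M.normalCore ∈ C := ⟨inferInstance, h2⟩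
  have h4 : N0 ≤ N0 ⊓ M.normalCore := hN0 h3 inf_le_left
  exact h4.trans (inf_le_right.trans (Subgroup.normalCore_le M))

end Pool.Agent.Schunck
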